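import Pool.Agent.DolbM.C38

open AlgebraicGeometry

namespace Pool.Agent.Results.MP_90358a_ag.Full

open Pool.Agent.TD

theorem result (K : Type) [NormedField K] [IsUltrametricDist K] [CompleteSpace K] (n : ℕ)
    (F : Fan n) (Y : Scheme.{0}) (ι : Str K Y) (T : Toric F Y ι) (X : Scheme.{0}) [IsIntegral X]
    (φ : X ⟶ Y) [IsClosedImmersion φ] (hX : T.SmoothX φ) (p q : ℕ) :
    IsoH (T.lsX φ) (anLS X (Str.pb φ ι)) (T.pbX φ (p := p) (q := q)) ∧
      IsoHc (T.lsX φ) (anLS X (Str.pb φ ι)) (T.pbX φ (p := p) (q := q)) :=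
  T.mainX φ hX p q

end Pool.Agent.Results.MP_90358a_ag.Full
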