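import Pool.Agent.DolbM.C16

/-!
# Dolbeault cohomology of toric varieties and their tropicalizations

For every fan `F` and every toric variety `Y` with fan `F` over a field `K` with an ultrametric
absolute value, the tropicalization map `Y^an → Trop(Y)` induces isomorphisms
`H^{p,q}(Trop(Y)) ≅ H^{p,q}(Y^an)` and `H_c^{p,q}(Trop(Y)) ≅ H_c^{p,q}(Y^an)`.
-/

open AlgebraicGeometry

namespace Pool.Agent.Results.MP_90358a_ag.ToricVarieties

open Pool.Agent.TD

/-- The tropicalization map of a toric variety induces isomorphisms on Dolbeault cohomology, with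
and without compact supports. -/
theorem result (K : Type) [NormedField K] [IsUltrametricDist K] (n : ℕ) (F : Fan n)
    (Y : Scheme.{0}) (ι : Str K Y) (T : Toric F Y ι) (p q : ℕ) :
    IsoH (tropLS F) (anLS Y ι) (T.pb (p := p) (q := q)) ∧
      IsoHc (tropLS F) (anLS Y ι) (T.pb (p := p) (q := q)) :=
  T.isoH p q

end Pool.Agent.Results.MP_90358a_ag.ToricVarieties
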